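import Pool.Agent.N909.CX.Def
import Pool.Agent.N645.CL.D

set_option autoImplicit false

/-! # The fair random Collatz map: the expected number of meetings (helper324) -/

namespace Pool.Agent.N324.CX

open Finset
open Pool.Agent.N909.CM Pool.Agent.N909.CL Pool.Agent.N909.CX

/-- the tilted weight of a word -/
noncomputable def Qw (v : List Bool) : ℝ := 3 ^ (v.count true) / 4 ^ v.length

theorem Qw_pos (v : List Bool) : 0 < Qw v := by unfold Qw; positivity

theorem sl_pos (v : List Bool) : 0 < sl v := by unfold sl; positivity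

theorem half_eq (v : List Bool) : (1 / 2 : ℝ) ^ v.length = Qw v * (sl v)⁻¹ := by
  unfold Qw sl
  have h4 : (4 : ℝ) ^ v.length = 2 ^ v.length * 2 ^ v.length := by
    rw [← mul_pow]
    norm_num
  have h2 : (0 : ℝ) < 2 ^ v.length := by positivity
  have h3 : (0 : ℝ) < 3 ^ (v.count true) := by positivity
  rw [h4, one_div, inv_pow]
  field_simp

theorem sum_union_le {ι : Type} [DecidableEq ι] (s t : Finset ι) {f : ι → ℝ} (hf : ∀ i, 0 ≤ f i) :
    ∑ i ∈ s ∪ t, f i ≤ ∑ i ∈ s, f i + ∑ i ∈ t, f i := by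
  rw [← Finset.sum_union_inter]
  have : 0 ≤ ∑ i ∈ s ∩ t, f i := Finset.sum_nonneg fun i _ => hf i
  linarith

/-- the weighted sum over all words -/
theorem sum_Wd (k : ℕ) : ∑ v ∈ Wd k, Qw v * (19 / 20 : ℝ) ^ v.length ≤ 20 := by
  induction k with
  | zero =>
    unfold Wd
    rw [Finset.sum_singleton]
    unfold Qw
    norm_num
  | succ k ih =>
    have hf : ∀ v : List Bool, 0 ≤ Qw v * (19 / 20 : ℝ) ^ v.length := fun v =>
      mul_nonneg (Qw_pos v).le (by positivity)
    unfold Wd
    refine (sum_union_le _ _ hf).trans ?_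
    have h1 := sum_union_le ((Wd k).image (fun w => true :: w)) ((Wd k).image (fun w => false :: w)) hf
    rw [Finset.sum_singleton]
    have e0 : Qw [] * (19 / 20 : ℝ) ^ ([] : List Bool).length = 1 := by
      unfold Qw
      norm_num
    have e1 : ∑ v ∈ (Wd k).image (fun w => true :: w), Qw v * (19 / 20 : ℝ) ^ v.length =
        3 / 4 * (19 / 20) * ∑ v ∈ Wd k, Qw v * (19 / 20 : ℝ) ^ v.length := by
      rw [Finset.sum_image (fun x _ y _ h => (List.cons.inj h).2), Finset.mul_sum]
      refine Finset.sum_congr rfl fun v _ => ?_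
      unfold Qw
      rw [List.count_cons_self, List.length_cons, pow_succ, pow_succ, pow_succ]
      have : (0 : ℝ) < 4 ^ v.length := by positivity
      field_simp
    have e2 : ∑ v ∈ (Wd k).image (fun w => false :: w), Qw v * (19 / 20 : ℝ) ^ v.length =
        1 / 4 * (19 / 20) * ∑ v ∈ Wd k, Qw v * (19 / 20 : ℝ) ^ v.length := by
      rw [Finset.sum_image (fun x _ y _ h => (List.cons.inj h).2), Finset.mul_sum]
      refine Finset.sum_congr rfl fun v _ => ?_
      unfold Qw
      rw [List.count_cons_of_ne (by simp), List.length_cons, pow_succ, pow_succ]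
      have : (0 : ℝ) < 4 ^ v.length := by positivity
      field_simp
    rw [e1, e2] at h1
    rw [e0]
    linarith

theorem pos_mem {p : ℕ} (w : List Bool) : ∀ n : ℕ, p ∈ pos n w →
    ∃ i < w.length, p = val n (w.take i) := by
  induction w with
  | nil =>
    intro n h
    simp [pos] at h
  | cons d w ih =>
    intro n h
    rw [pos, List.mem_cons] at h
    rcases h with h | h
    · exact ⟨0, by simp, by rw [h]; rfl⟩
    · obtain ⟨i, hi, h2⟩ := ih _ h
      refine ⟨i + 1, by rw [List.length_cons]; omega, ?_⟩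
      rw [h2, List.take_succ_cons]
      rfl

theorem tube_take {M : ℕ} {w : List Bool} (h : Tube M w) (i : ℕ) : Tube M (w.take i) := by
  intro j hj
  rw [List.length_take] at hj
  have h1 : j ≤ w.length := hj.trans (min_le_right _ _)
  have h2 : min j i = j := min_eq_left (hj.trans (min_le_left _ _))
  rw [List.take_take, h2]
  exact h j h1

/-- the growth along words in the tube -/
theorem tube_pow {M : ℕ} {v : List Bool} (h : Tube M v) {j : ℕ} (hj : j ≤ v.length) :
    (2 : ℝ) ^ j / 3 ^ ((v.take j).count true) ≤ 3 ^ M * (361 / 400) ^ j := by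
  have h1 := (abs_le.1 (h j hj)).1
  have h2 : 8 * j ≤ 11 * ((v.take j).count true + M) := by
    have : (8 * j : ℝ) ≤ 11 * (((v.take j).count true : ℕ) + M) := by
      have hj0 : (0 : ℝ) ≤ j := by positivity
      linarith
    exact_mod_cast this
  have h3 : ((800 / 361 : ℝ) ^ j) ^ 11 ≤ (3 ^ ((v.take j).count true + M)) ^ 11 := by
    calc ((800 / 361 : ℝ) ^ j) ^ 11 = ((800 / 361) ^ 11) ^ j := by rw [← pow_mul, ← pow_mul, mul_comm]
      _ ≤ (3 ^ 8) ^ j := by
        refine pow_le_pow_left₀ (by positivity) ?_ j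
        norm_num
      _ = 3 ^ (8 * j) := by rw [← pow_mul]
      _ ≤ 3 ^ (11 * ((v.take j).count true + M)) := pow_le_pow_right₀ (by norm_num) h2
      _ = (3 ^ ((v.take j).count true + M)) ^ 11 := by rw [← pow_mul, mul_comm]
  have h4 : (800 / 361 : ℝ) ^ j ≤ 3 ^ ((v.take j).count true + M) :=
    (pow_le_pow_iff_left₀ (by positivity) (by positivity) (by norm_num)).1 h3
  rw [div_le_iff₀ (by positivity)]
  have e : (2 : ℝ) ^ j = (800 / 361) ^ j * (361 / 400) ^ j := by
    rw [← mul_pow]
    norm_num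
  rw [e]
  calc (800 / 361 : ℝ) ^ j * (361 / 400) ^ j ≤
        3 ^ ((v.take j).count true + M) * (361 / 400) ^ j :=
        mul_le_mul_of_nonneg_right h4 (by positivity)
    _ = 3 ^ M * (361 / 400) ^ j * 3 ^ ((v.take j).count true) := by
        rw [pow_add]
        ring

theorem sl_inv {M : ℕ} {v : List Bool} (h : Tube M v) :
    (sl v)⁻¹ ≤ 3 ^ M * (19 / 20) ^ (2 * v.length) := by
  have h1 := tube_pow h le_rfl
  rw [List.take_length] at h1
  unfold sl
  rw [inv_div, pow_mul]
  norm_num at h1 ⊢
  exact h1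

/-- the number of starting points -/
theorem card_le {M : ℕ} {v : List Bool} (h : Tube M v) (z : ℕ) (I : Finset ℕ) :
    ((I.filter (fun n => val n v = z)).card : ℝ) ≤ 1 + 5 * 3 ^ M := by
  obtain ⟨hfin, hc⟩ := Pool.Agent.N645.CL.t v z
  have h1 : ((I.filter (fun n => val n v = z)).card : ℝ) ≤ (({n : ℕ | val n v = z}).ncard : ℝ) := by
    rw [← Set.ncard_coe_finset]
    have : (((I.filter (fun n => val n v = z)) : Finset ℕ) : Set ℕ) ⊆ {n : ℕ | val n v = z} := by
      intro n hn
      rw [Finset.mem_coe, Finset.mem_filter] at hn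
      exact hn.2
    exact_mod_cast Set.ncard_le_ncard this hfin
  have h2 : ∑ j ∈ Finset.Icc 1 v.length, (2 : ℝ) ^ j / 3 ^ ((v.take j).count true) ≤
      ∑ j ∈ Finset.Icc 1 v.length, 3 ^ M * (361 / 400 : ℝ) ^ j :=
    Finset.sum_le_sum fun j hj => tube_pow h (Finset.mem_Icc.1 hj).2
  have h3 : ∑ j ∈ Finset.Icc 1 v.length, (361 / 400 : ℝ) ^ j ≤ 10 := by
    have h4 : ∀ m : ℕ, ∑ j ∈ Finset.Icc 1 m, (361 / 400 : ℝ) ^ j ≤ 10 - 10 * (361 / 400) ^ m := by
      intro m
      induction m with
      | zero => simp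
      | succ m ih =>
        rw [Finset.sum_Icc_succ_top (by omega)]
        have : (0 : ℝ) < (361 / 400) ^ m := by positivity
        rw [pow_succ]
        linarith
    have h5 := h4 v.length
    have : (0 : ℝ) < (361 / 400) ^ v.length := by positivity
    linarith
  rw [← Finset.mul_sum] at h2
  have h6 : (0 : ℝ) < 3 ^ M := by positivity
  have h7 := mul_le_mul_of_nonneg_left h3 h6.le
  linarith

theorem geo (m : ℕ) : ∑ i ∈ range m, (19 / 20 : ℝ) ^ i ≤ 20 := by
  have h4 : ∀ m : ℕ, ∑ i ∈ range m, (19 / 20 : ℝ) ^ i = 20 - 20 * (19 / 20) ^ m := by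
    intro m
    induction m with
    | zero => simp
    | succ m ih =>
      rw [Finset.sum_range_succ, ih, pow_succ]
      ring
  rw [h4]
  have : (0 : ℝ) < (19 / 20) ^ m := by positivity
  linarith

theorem t (h0 : Stm0) : Stm3 := by
  classical
  intro M
  obtain ⟨N₀, hN₀⟩ := h0 M
  refine ⟨800 * 3 ^ M * (1 + 5 * 3 ^ M), max N₀ 1, ?_⟩
  intro N hN n hn w hw k
  obtain ⟨a, ha⟩ : ∃ a : ℝ, a = 3 ^ M := ⟨_, rfl⟩
  have ha0 : 0 < a := by rw [ha]; positivity
  rw [← ha]
  have hNN : N₀ ≤ N := (le_max_left _ _).trans hN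
  have hN1 : 1 ≤ N := (le_max_right _ _).trans hN
  have hn0 : (0 : ℝ) < n := by
    have : 0 < n := by omega
    exact_mod_cast this
  -- the bound for one word
  have hv : ∀ n' ∈ Finset.Ioc N n, ∀ v : List Bool, Tube M v → ∀ i < w.length,
      val n' v = val n (w.take i) →
      (1 / 2 : ℝ) ^ v.length ≤ Qw v * (2 * a * (19 / 20) ^ i * (19 / 20) ^ v.length) := by
    intro n' hn' v hv i hi he
    rw [Finset.mem_Ioc] at hn'
    obtain ⟨hn1, hn2⟩ := hn'
    have h1 := (hN₀ n' (by omega) v hv).2
    have h2 := (hN₀ n (by omega) (w.take i) (tube_take hw i)).1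
    rw [← he] at h2
    have h3 : sl v * n' ≤ sl v * n :=
      mul_le_mul_of_nonneg_left (by exact_mod_cast hn2) (sl_pos v).le
    have h4 : sl (w.take i) * n ≤ 4 * sl v * n := by linarith
    have h5 : sl (w.take i) ≤ 4 * sl v := le_of_mul_le_mul_right h4 hn0
    have h6 : (sl v)⁻¹ ≤ 4 * (sl (w.take i))⁻¹ := by
      have e1 := sl_pos v
      have e2 := sl_pos (w.take i)
      rw [← one_div, ← one_div, mul_one_div, div_le_div_iff₀ e1 e2]
      linarith
    have h7 := sl_inv (tube_take hw i)
    rw [List.length_take, min_eq_left hi.le, ← ha] at h7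
    have h8 := sl_inv hv
    rw [← ha] at h8
    have h9 : 0 < (sl v)⁻¹ := inv_pos.2 (sl_pos v)
    have h10 : ((sl v)⁻¹) ^ 2 ≤ (2 * a * (19 / 20) ^ i * (19 / 20) ^ v.length) ^ 2 := by
      calc ((sl v)⁻¹) ^ 2 = (sl v)⁻¹ * (sl v)⁻¹ := sq _
        _ ≤ (4 * (a * (19 / 20) ^ (2 * i))) * (a * (19 / 20) ^ (2 * v.length)) := by
          refine mul_le_mul ?_ h8 h9.le (by positivity)
          linarith
        _ = (2 * a * (19 / 20) ^ i * (19 / 20) ^ v.length) ^ 2 := by
          rw [mul_comm 2 i, mul_comm 2 v.length, pow_mul, pow_mul]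
          ring
    have h11 : (sl v)⁻¹ ≤ 2 * a * (19 / 20) ^ i * (19 / 20) ^ v.length :=
      (pow_le_pow_iff_left₀ h9.le (by positivity) (by norm_num)).1 h10
    rw [half_eq]
    exact mul_le_mul_of_nonneg_left h11 (Qw_pos v).le
  have hh : ∀ (v : List Bool) (i : ℕ),
      0 ≤ Qw v * (2 * a * (19 / 20) ^ i * (19 / 20) ^ v.length) := fun v i =>
    mul_nonneg (Qw_pos v).le (by positivity)
  calc _ ≤ ∑ n' ∈ Finset.Ioc N n, ∑ v ∈ Wd k, ∑ i ∈ range w.length,
        (if Tube M v ∧ val n' v = val n (w.take i) then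
          Qw v * (2 * a * (19 / 20) ^ i * (19 / 20) ^ v.length) else 0) := by
        refine Finset.sum_le_sum fun n' hn' => ?_
        rw [Finset.sum_filter]
        refine Finset.sum_le_sum fun v _ => ?_
        have hnn : ∀ i ∈ range w.length, 0 ≤ (if Tube M v ∧ val n' v = val n (w.take i) then
            Qw v * (2 * a * (19 / 20) ^ i * (19 / 20) ^ v.length) else 0) := by
          intro i _
          split_ifs
          · exact hh v i
          · exact le_rfl
        split_ifs with hc
        · obtain ⟨i, hi, he⟩ := pos_mem w n hc.2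
          refine le_trans ?_ (Finset.single_le_sum hnn (Finset.mem_range.2 hi))
          rw [if_pos ⟨hc.1, he⟩]
          exact hv n' hn' v hc.1 i hi he
        · exact Finset.sum_nonneg hnn
    _ = ∑ v ∈ Wd k, ∑ i ∈ range w.length, ∑ n' ∈ Finset.Ioc N n,
        (if Tube M v ∧ val n' v = val n (w.take i) then
          Qw v * (2 * a * (19 / 20) ^ i * (19 / 20) ^ v.length) else 0) := by
        rw [Finset.sum_comm]
        refine Finset.sum_congr rfl fun v _ => ?_
        rw [Finset.sum_comm]
    _ ≤ ∑ v ∈ Wd k, ∑ i ∈ range w.length,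
        (1 + 5 * a) * (Qw v * (2 * a * (19 / 20) ^ i * (19 / 20) ^ v.length)) := by
        refine Finset.sum_le_sum fun v _ => Finset.sum_le_sum fun i _ => ?_
        by_cases hT : Tube M v
        · have e : ∑ n' ∈ Finset.Ioc N n, (if Tube M v ∧ val n' v = val n (w.take i) then
              Qw v * (2 * a * (19 / 20) ^ i * (19 / 20) ^ v.length) else 0) =
              (((Finset.Ioc N n).filter (fun n' => val n' v = val n (w.take i))).card : ℝ) *
                (Qw v * (2 * a * (19 / 20) ^ i * (19 / 20) ^ v.length)) := by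
            rw [← Finset.sum_filter, Finset.sum_const, nsmul_eq_mul]
            congr 3
            refine Finset.filter_congr fun n' _ => ?_
            simp [hT]
          rw [e]
          have h1 := card_le hT (val n (w.take i)) (Finset.Ioc N n)
          rw [← ha] at h1
          exact mul_le_mul_of_nonneg_right h1 (hh v i)
        · have e : ∑ n' ∈ Finset.Ioc N n, (if Tube M v ∧ val n' v = val n (w.take i) then
              Qw v * (2 * a * (19 / 20) ^ i * (19 / 20) ^ v.length) else 0) = 0 := by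
            refine Finset.sum_eq_zero fun n' _ => ?_
            rw [if_neg fun hc => hT hc.1]
          rw [e]
          exact mul_nonneg (by linarith) (hh v i)
    _ = (1 + 5 * a) * (2 * a) * ((∑ v ∈ Wd k, Qw v * (19 / 20) ^ v.length) *
        ∑ i ∈ range w.length, (19 / 20 : ℝ) ^ i) := by
        rw [Finset.sum_mul_sum, Finset.mul_sum]
        refine Finset.sum_congr rfl fun v _ => ?_
        rw [Finset.mul_sum]
        refine Finset.sum_congr rfl fun i _ => ?_
        ring
    _ ≤ (1 + 5 * a) * (2 * a) * (20 * 20) := by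
        refine mul_le_mul_of_nonneg_left ?_ (by positivity)
        refine mul_le_mul (sum_Wd k) (geo _) (Finset.sum_nonneg fun i _ => by positivity)
          (by norm_num)
    _ = 800 * a * (1 + 5 * a) := by ring

end Pool.Agent.N324.CX
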